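import Pool.Agent.helper83.Bis.RoundM
import Pool.Agent.helper14.LE.Spread
import Pool.Agent.helper14.LE.CoreG
import Pool.Agent.helper15.Bis.Signs
import Pool.Agent.helper40.Bis.ChooseK

set_option autoImplicit false

/-!
# Exact bisections that are good at all low vertices, at a set `S` of hubs and at the giants,
when a linear (small) proportion of the vertices is fixed
-/

namespace Pool.Agent.helper33.Bis

open Finset Pool.Agent.helper2.Bis Pool.Agent.helper83.Bis

/-- a sum of signs is compensated by a number of equal signs -/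
theorem sum_natAbs {V : Type} [DecidableEq V] (A : Finset V) (e : V → ℝ)
    (he : ∀ v ∈ A, e v = 1 ∨ e v = -1) (b : ℕ) (hb : |∑ v ∈ A, e v| ≤ b) :
    ∃ (N : ℕ) (ε : ℝ), (ε = 1 ∨ ε = -1) ∧ N ≤ b ∧ ∑ v ∈ A, e v + N * ε = 0 := by
  obtain ⟨P, hP, h⟩ := Pool.Agent.helper71.Bis.sum_pm A e he
  rw [h] at hb ⊢
  have h1 := abs_le.1 hb
  by_cases h2 : A.card ≤ 2 * P
  · refine ⟨2 * P - A.card, -1, Or.inr rfl, ?_, ?_⟩
    · have h3 : (2 * P : ℝ) ≤ b + A.card := by linarith [h1.2]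
      have h4 : 2 * P ≤ b + A.card := by exact_mod_cast h3
      omega
    · rw [Nat.cast_sub h2]
      push_cast
      ring
  · rw [not_le] at h2
    refine ⟨A.card - 2 * P, 1, Or.inl rfl, ?_, ?_⟩
    · have h3 : (A.card : ℝ) ≤ b + 2 * P := by linarith [h1.1]
      have h4 : A.card ≤ b + 2 * P := by exact_mod_cast h3
      omega
    · rw [Nat.cast_sub h2.le]
      push_cast
      ring

/-- the compensating set, the correction set and the private sets, and the rounding -/
theorem assemble_mm {V : Type} [Fintype V] [DecidableEq V] (P R : V → V → Prop)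
    (hRP : ∀ u v, R u v → P u v)
    (hsymm : ∀ u v, R u v → R v u) (H : Finset V) (J : ℝ) (hJ : J = 1 ∨ J = -1)
    (m k D N0 : ℕ) (c : ℝ) (hc : 0 < c) (hc32 : c ≤ 1 / 32)
    (hm4 : 4 / c ^ 2 ≤ (m : ℝ)) (hDle : (D : ℝ) ≤ Real.exp (c ^ 2 / 8 * m)) (hmD : 2 * m ≤ D)
    (h2k : 2 * k ≤ m) (hdeg : ∀ v, m ≤ dg R v) (hDlow : ∀ v, v ∉ H → dg R v ≤ D)
    (hHm : ∀ h ∈ H, ∀ v, R h v → v ∉ H)
    (S G : Finset V) (hSH : S ⊆ H) (hGH : G ⊆ H) (hSG : Disjoint S G)
    (s q : V → ℝ) (g f j : ℕ) (hs : ∀ v, s v = 1 ∨ s v = -1 ∨ s v = 0) (hsH : ∀ h ∈ H, s h ≠ 0)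
    (hq1 : ∀ v, s v ≠ 0 → q v = s v / 2) (hq0 : ∀ v, s v = 0 → |q v| ≤ 1 / 2)
    (hx0 : ∀ v, v ∉ H → s v = 0 →
        |J * ∑ w ∈ nb R v, q w| ≤ (dg R v : ℝ) / 2 - k - 2 * c * dg R v)
    (hx1 : ∀ v, v ∉ H → s v ≠ 0 →
        -((dg R v : ℝ) / 2 - k - 2 * c * dg R v) ≤ s v * (J * ∑ w ∈ nb R v, q w))
    (hY : ∀ u ∈ S, ∃ Y ⊆ nb R u, Y.card = N0 ∧ ∀ w ∈ Y, 4 * c ≤ 1 + 2 * (J * s u * q w))
    (hsum : |∑ h ∈ H, s h| ≤ g)
    (hF0 : (univ.filter (fun v => v ∉ H ∧ s v ≠ 0)).card ≤ g)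
    (hF1 : (univ.filter (fun v => v ∉ H ∧ s v = 0 ∧ q v ≠ 0)).card ≤ f)
    (hj : (1 / 2 : ℝ) ^ j ≤ c / 2)
    (T : Finset V) (hT : T = univ.filter (fun v => v ∉ H)) (hT8 : 8 ≤ T.card)
    (hgT : 8 * (g * 2 ^ j) ≤ T.card)
    (hfT : f = 0 ∨ 8 * ((f + 1) * (D ^ 2 + 3)) ≤ T.card)
    (hN0 : 2 * (m : ℝ) ≤ 4 * c * N0) (hN0D : N0 ≤ D) (hHN : 2 * (H.card * N0) ≤ T.card)
    (hgiant : ∀ v ∈ G, 2 * m * G.card + H.card + 3 * g + 2 * f + 1 ≤ dg P v) :
    ∃ e : V → ℝ, (∀ v, e v = 1 ∨ e v = -1) ∧ |∑ v, e v| ≤ 1 ∧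
      (∀ v, (v ∉ H ∨ v ∈ S ∨ v ∈ G) →
        k ≤ ((nb P v).filter (fun w => J * e v * e w = 1)).card) := by
  classical
  have hc2pos : 0 < c ^ 2 := by positivity
  have hcm : 4 ≤ c ^ 2 * m := by
    rw [div_le_iff₀ hc2pos] at hm4
    linarith
  have hc64 : c ^ 2 ≤ 1 / 1024 := by nlinarith
  have hm4096 : (4096 : ℝ) ≤ m := by
    have h1 : (4 : ℝ) * 1024 ≤ 4 / c ^ 2 := by
      rw [le_div_iff₀ hc2pos]
      nlinarith
    linarith
  have hE2 : 4 * (m : ℝ) ^ 2 ≤ Real.exp (c ^ 2 / 4 * m) := by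
    have h1 : Real.exp (c ^ 2 / 4 * m) = Real.exp (c ^ 2 / 8 * m) ^ 2 := by
      rw [← Real.exp_nat_mul]
      congr 1
      push_cast
      ring
    have h2 : 2 * (m : ℝ) ≤ Real.exp (c ^ 2 / 8 * m) := by
      have : 2 * (m : ℝ) ≤ D := by exact_mod_cast hmD
      linarith
    rw [h1]
    calc 4 * (m : ℝ) ^ 2 = (2 * (m : ℝ)) ^ 2 := by ring
      _ ≤ _ := pow_le_pow_left₀ (by linarith) h2 2
  have hJ2 : |J| = 1 := by rcases hJ with rfl | rfl <;> simp
  set F0 : Finset V := univ.filter (fun v => v ∉ H ∧ s v ≠ 0) with hF0def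
  set F1 : Finset V := univ.filter (fun v => v ∉ H ∧ s v = 0 ∧ q v ≠ 0) with hF1def
  set Z : Finset V := univ.filter (fun v => v ∉ H ∧ s v = 0 ∧ q v = 0) with hZ
  have hZmem : ∀ v, v ∈ Z ↔ v ∉ H ∧ s v = 0 ∧ q v = 0 := fun v => by simp [hZ]
  have hTZ : T.card ≤ Z.card + F0.card + F1.card := by
    have hsub : T ⊆ (Z ∪ F0) ∪ F1 := by
      intro v hv
      rw [hT] at hv
      have hvH : v ∉ H := (mem_filter.mp hv).2
      simp only [hZ, hF0def, hF1def, mem_union, mem_filter, mem_univ, true_and]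
      by_cases h : s v = 0
      · by_cases h' : q v = 0
        · exact Or.inl (Or.inl ⟨hvH, h, h'⟩)
        · exact Or.inr ⟨hvH, h, h'⟩
      · exact Or.inl (Or.inr ⟨hvH, h⟩)
    refine (Finset.card_le_card hsub).trans ((Finset.card_union_le _ _).trans ?_)
    have := Finset.card_union_le Z F0
    omega
  -- the sets of the middle hubs
  have hY' : ∀ u : V, ∃ Y : Finset V, u ∈ S → (Y ⊆ nb R u ∧ Y.card = N0 ∧
      ∀ w ∈ Y, 4 * c ≤ 1 + 2 * (J * s u * q w)) := by
    intro u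
    by_cases hu : u ∈ S
    · obtain ⟨Y, h1, h2⟩ := hY u hu
      exact ⟨Y, fun _ => ⟨h1, h2⟩⟩
    · exact ⟨∅, fun h => absurd h hu⟩
  choose Yh hYh using hY'
  set UY : Finset V := S.biUnion Yh with hUY
  have hUYc : UY.card ≤ H.card * N0 := by
    refine (Finset.card_biUnion_le_card_mul _ _ N0 (fun u hu => (hYh u hu).2.1.le)).trans ?_
    exact Nat.mul_le_mul_right _ (Finset.card_le_card hSH)
  have hZU : Z.card ≤ (Z \ UY).card + UY.card := by
    have := Finset.le_card_sdiff UY Z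
    omega
  have hg2 : g ≤ g * 2 ^ j := Nat.le_mul_of_pos_right _ (by positivity)
  have hfT' : 8 * f ≤ T.card := by
    rcases hfT with h | h
    · omega
    · have h1 : f * 1 ≤ (f + 1) * (D ^ 2 + 3) := Nat.mul_le_mul (by omega) (by omega)
      omega
  -- the fixed sum
  set A : Finset V := univ.filter (fun v => s v ≠ 0) with hA
  have hAdec : A = H ∪ F0 := by
    ext v
    simp only [hA, hF0def, mem_union, mem_filter, mem_univ, true_and]
    constructor
    · intro h
      by_cases h1 : v ∈ H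
      · exact Or.inl h1
      · exact Or.inr ⟨h1, h⟩
    · rintro (h | h)
      · exact hsH v h
      · exact h.2
  have hs1 : ∀ v ∈ A, s v = 1 ∨ s v = -1 := by
    intro v hv
    have h1 : s v ≠ 0 := (mem_filter.1 hv).2
    rcases hs v with h | h | h
    · exact Or.inl h
    · exact Or.inr h
    · exact absurd h h1
  have hσ : |∑ v ∈ A, s v| ≤ ((2 * g : ℕ) : ℝ) := by
    rw [hAdec, Finset.sum_union (by
      rw [Finset.disjoint_left]
      intro v h1 h2
      simp only [hF0def, mem_filter] at h2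
      exact h2.2.1 h1)]
    have h1 : |∑ v ∈ F0, s v| ≤ F0.card := by
      refine (Finset.abs_sum_le_sum_abs _ _).trans ?_
      have : ∀ v ∈ F0, |s v| ≤ 1 := fun v _ => by
        rcases hs v with h | h | h <;> rw [h] <;> norm_num
      refine (Finset.sum_le_card_nsmul _ _ _ this).trans (le_of_eq ?_)
      simp
    have h2 : (F0.card : ℝ) ≤ g := by exact_mod_cast hF0
    have h3 := abs_add_le (∑ h ∈ H, s h) (∑ v ∈ F0, s v)
    push_cast
    linarith
  obtain ⟨N', ε, hε, hN', hεN⟩ := sum_natAbs A s hs1 (2 * g) hσ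
  -- the compensating set
  obtain ⟨K', hK'Z, hK'c, hK'⟩ := Pool.Agent.helper14.LE.spread R hsymm H m D (3 / 4 * c)
    (by linarith) (by linarith) hdeg hDlow (by
      have h1 : (D : ℝ) ^ 2 ≤ Real.exp (c ^ 2 / 4 * m) := by
        have h1 : Real.exp (c ^ 2 / 4 * m) = Real.exp (c ^ 2 / 8 * m) ^ 2 := by
          rw [← Real.exp_nat_mul]
          congr 1
          push_cast
          ring
        rw [h1]
        exact pow_le_pow_left₀ (Nat.cast_nonneg _) hDle 2
      set E : ℝ := Real.exp (c ^ 2 / 4 * m) with hE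
      have hE12 : 12 ≤ E := by nlinarith
      have hE0 : 0 < E := by linarith
      have h2 : Real.exp (-((3 / 4 * c) ^ 2 * m)) * (E * E) ≤ 1 := by
        rw [hE, ← Real.exp_add, ← Real.exp_add, ← Real.exp_zero]
        apply Real.exp_le_exp.2
        nlinarith
      have h3 : 2 * (D : ℝ) ^ 2 + 1 ≤ 3 * E := by linarith
      have h4 : 4 * (3 * E) ≤ E * E := by nlinarith
      calc 4 * Real.exp (-((3 / 4 * c) ^ 2 * m)) * (2 * (D : ℝ) ^ 2 + 1)
          ≤ 4 * Real.exp (-((3 / 4 * c) ^ 2 * m)) * (3 * E) :=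
            mul_le_mul_of_nonneg_left h3 (by positivity)
        _ = Real.exp (-((3 / 4 * c) ^ 2 * m)) * (4 * (3 * E)) := by ring
        _ ≤ Real.exp (-((3 / 4 * c) ^ 2 * m)) * (E * E) :=
            mul_le_mul_of_nonneg_left h4 (Real.exp_pos _).le
        _ ≤ 1 := h2)
    (Z \ UY) (fun v hv => ((hZmem v).1 (Finset.mem_sdiff.1 hv).1).1) j N' (by
      have h1 : N' * 2 ^ j ≤ 2 * g * 2 ^ j := Nat.mul_le_mul_right _ hN'
      have h2 : 2 * g * 2 ^ j = 2 * (g * 2 ^ j) := by ring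
      omega)
  have hK'Z' : ∀ v ∈ K', v ∉ H ∧ s v = 0 ∧ q v = 0 := fun v hv =>
    (hZmem v).1 (Finset.mem_sdiff.1 (hK'Z hv)).1
  have hK'U : ∀ v ∈ K', v ∉ UY := fun v hv => (Finset.mem_sdiff.1 (hK'Z hv)).2
  set s' : V → ℝ := fun v => if v ∈ K' then ε else s v with hs'
  set q' : V → ℝ := fun v => if v ∈ K' then ε / 2 else q v with hq'
  have hs'K : ∀ v ∈ K', s' v = ε := fun v hv => by simp [hs', hv]
  have hs'n : ∀ v, v ∉ K' → s' v = s v := fun v hv => by simp [hs', hv]
  have hq'K : ∀ v ∈ K', q' v = ε / 2 := fun v hv => by simp [hq', hv]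
  have hq'n : ∀ v, v ∉ K' → q' v = q v := fun v hv => by simp [hq', hv]
  have hε0 : ε ≠ 0 := by rcases hε with rfl | rfl <;> norm_num
  have hε1 : |ε| = 1 := by rcases hε with rfl | rfl <;> norm_num
  have hHK' : ∀ h ∈ H, h ∉ K' := fun h hh hK => (hK'Z' h hK).1 hh
  have hs'H : ∀ h ∈ H, s' h = s h := fun h hh => hs'n h (hHK' h hh)
  have hfield : ∀ v, v ∉ H →
      |J * ∑ w ∈ nb R v, q' w - J * ∑ w ∈ nb R v, q w| ≤ c * dg R v := by
    intro v hv
    rw [← mul_sub, ← Finset.sum_sub_distrib, abs_mul, hJ2, one_mul]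
    refine (Finset.abs_sum_le_sum_abs _ _).trans ?_
    have e1 : ∀ w ∈ nb R v, |q' w - q w| ≤ if w ∈ K' then (1 / 2 : ℝ) else 0 := by
      intro w _
      split_ifs with h1
      · rw [hq'K w h1, (hK'Z' w h1).2.2, sub_zero, abs_div, hε1, abs_two]
      · rw [hq'n w h1, sub_self, abs_zero]
    refine (Finset.sum_le_sum e1).trans ?_
    rw [Finset.sum_ite_mem, Finset.sum_const, nsmul_eq_mul]
    have h1 := hK' v hv
    have h0 : (1 / 2 ^ j : ℝ) ≤ c / 2 := by
      rw [one_div_pow] at hj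
      exact hj
    have h2 : (1 / 2 ^ j + 2 * (3 / 4 * c)) * (dg R v : ℝ) ≤ (2 * c) * dg R v :=
      mul_le_mul_of_nonneg_right (by linarith) (Nat.cast_nonneg _)
    linarith
  -- the correction set
  obtain ⟨N, hN1, hN2, hNpar⟩ : ∃ N : ℕ, F1.card ≤ N ∧ N ≤ F1.card + 1 ∧
      (N ≤ Z.card - N' → Even (Z.card - N' - N)) := by
    rcases Nat.even_or_odd (Z.card - N' - F1.card) with h | h
    · exact ⟨F1.card, le_refl _, by omega, fun _ => h⟩
    · refine ⟨F1.card + 1, by omega, le_refl _, fun hle => ?_⟩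
      obtain ⟨r, hr⟩ := h
      exact ⟨r, by omega⟩
  have hdisj : Disjoint H Z := by
    rw [Finset.disjoint_left]
    intro v hv hvZ
    exact ((hZmem v).1 hvZ).1 hv
  have hZUK : (Z \ UY).card ≤ ((Z \ UY) \ K').card + N' := by
    have := Finset.le_card_sdiff K' (Z \ UY)
    omega
  obtain ⟨K, hKZ, hKc, hK2⟩ : ∃ K : Finset V, K ⊆ (Z \ UY) \ K' ∧ K.card = N ∧
      ∀ v, v ∉ H → (nb R v ∩ K).card ≤ 2 := by
    rcases hfT with hf0 | hfT
    · have hNZ : N ≤ ((Z \ UY) \ K').card := by omega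
      obtain ⟨K, hKZ, hKc⟩ := Finset.exists_subset_card_eq hNZ
      refine ⟨K, hKZ, hKc, fun v _ => ?_⟩
      refine (Finset.card_le_card Finset.inter_subset_right).trans ?_
      omega
    · have h4 : N * (D ^ 2 + 1) ≤ (f + 1) * (D ^ 2 + 1) := Nat.mul_le_mul_right _ (by omega)
      have h5 : (f + 1) * (D ^ 2 + 3) = (f + 1) * (D ^ 2 + 1) + 2 * (f + 1) := by ring
      have hNZ : N * (D ^ 2 + 1) ≤ ((Z \ UY) \ K').card := by omega
      obtain ⟨K, hKZ, hKc, hK⟩ := Pool.Agent.helper40.Bis.greedy R hsymm H Z ((Z \ UY) \ K') hdisj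
        (Finset.sdiff_subset.trans Finset.sdiff_subset) D hDlow N hNZ N le_rfl
      refine ⟨K, hKZ, hKc, fun v hv => ?_⟩
      have : (nb R v ∩ K).card ≤ 1 := by
        rw [Finset.card_le_one]
        intro a ha b hb
        rw [mem_inter, mem_nb] at ha hb
        exact hK v hv a ha.2 b hb.2 ha.1 hb.1
      omega
  have hKZ' : ∀ v ∈ K, (v ∉ H ∧ s v = 0 ∧ q v = 0) ∧ v ∉ UY ∧ v ∉ K' := by
    intro v hv
    have h1 := Finset.mem_sdiff.1 (hKZ hv)
    have h2 := Finset.mem_sdiff.1 h1.1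
    exact ⟨(hZmem v).1 h2.1, h2.2, h1.2⟩
  -- the giants
  have hserve : ∀ v ∈ G, 2 * m * G.card ≤ (((nb P v ∩ Z) \ K') \ K).card := by
    intro v hv
    have h1 : dg P v ≤ (((nb P v ∩ Z) \ K') \ K).card + H.card + F0.card + F1.card + N + N' := by
      have hsub : nb P v ⊆ (((((((nb P v ∩ Z) \ K') \ K) ∪ H) ∪ F0) ∪ F1) ∪ K) ∪ K' := by
        intro w hw
        simp only [Finset.mem_union, Finset.mem_sdiff, Finset.mem_inter, hw, true_and]
        by_cases hwH : w ∈ H
        · exact Or.inl (Or.inl (Or.inl (Or.inl (Or.inr hwH))))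
        by_cases hwK' : w ∈ K'
        · exact Or.inr hwK'
        by_cases hwK : w ∈ K
        · exact Or.inl (Or.inr hwK)
        by_cases hw0 : s w = 0
        · by_cases hw1 : q w = 0
          · exact Or.inl (Or.inl (Or.inl (Or.inl (Or.inl
              ⟨⟨(hZmem w).2 ⟨hwH, hw0, hw1⟩, hwK'⟩, hwK⟩))))
          · exact Or.inl (Or.inl (Or.inr (by
              simp only [hF1def, mem_filter, mem_univ, true_and]
              exact ⟨hwH, hw0, hw1⟩)))
        · exact Or.inl (Or.inl (Or.inl (Or.inr (by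
            simp only [hF0def, mem_filter, mem_univ, true_and]
            exact ⟨hwH, hw0⟩))))
      have h2 := Finset.card_le_card hsub
      have h3 := Finset.card_union_le ((((((nb P v ∩ Z) \ K') \ K) ∪ H) ∪ F0) ∪ F1 ∪ K) K'
      have h4 := Finset.card_union_le ((((((nb P v ∩ Z) \ K') \ K) ∪ H) ∪ F0) ∪ F1) K
      have h5 := Finset.card_union_le (((((nb P v ∩ Z) \ K') \ K) ∪ H) ∪ F0) F1
      have h6 := Finset.card_union_le ((((nb P v ∩ Z) \ K') \ K) ∪ H) F0
      have h7 := Finset.card_union_le (((nb P v ∩ Z) \ K') \ K) H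
      unfold dg
      omega
    have h2 := hgiant v hv
    omega
  obtain ⟨Y, hY1, hY2⟩ := Pool.Agent.helper14.LE.exists_family
    (fun v => ((nb P v ∩ Z) \ K') \ K) (2 * m) G.card G le_rfl hserve
  obtain ⟨e, he1, he2, he3, he4, he5⟩ := rounding_m R hsymm H J hJ m k D c hc (by linarith) hm4
    hdeg hDlow s' q'
    (by
      intro v
      by_cases h : v ∈ K'
      · rw [hs'K v h]
        rcases hε with h' | h'
        · exact Or.inl h'
        · exact Or.inr (Or.inl h')
      · rw [hs'n v h]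
        exact hs v)
    (by
      intro h hh
      rw [hs'H h hh]
      exact hsH h hh)
    (by
      intro v hv
      by_cases h : v ∈ K'
      · rw [hs'K v h, hq'K v h]
      · rw [hs'n v h] at hv ⊢
        rw [hq'n v h]
        exact hq1 v hv)
    (by
      intro v hv
      by_cases h : v ∈ K'
      · rw [hs'K v h] at hv
        exact absurd hv hε0
      · rw [hs'n v h] at hv
        rw [hq'n v h]
        exact hq0 v hv)
    (by
      intro v hvH hv
      by_cases h : v ∈ K'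
      · rw [hs'K v h] at hv
        exact absurd hv hε0
      · rw [hs'n v h] at hv
        have h1 := hx0 v hvH hv
        have h2 := abs_le.1 (hfield v hvH)
        have h3 := abs_le.1 h1
        rw [abs_le]
        constructor <;> linarith [h2.1, h2.2, h3.1, h3.2])
    (by
      intro v hvH hv
      have h2 := abs_le.1 (hfield v hvH)
      by_cases h : v ∈ K'
      · have h1 := abs_le.1 (hx0 v hvH (hK'Z' v h).2.1)
        rw [hs'K v h]
        rcases hε with h' | h' <;> rw [h'] <;> linarith [h2.1, h2.2, h1.1, h1.2]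
      · rw [hs'n v h] at hv ⊢
        have h1 := hx1 v hvH hv
        rcases hs v with h' | h' | h'
        · rw [h'] at h1 ⊢
          linarith [h2.1, h2.2]
        · rw [h'] at h1 ⊢
          linarith [h2.1, h2.2]
        · exact absurd h' hv)
    K
    (by
      intro v hv
      have h1 := hKZ' v hv
      rw [hs'n v h1.2.2, hq'n v h1.2.2]
      exact h1.1)
    hK2
    (by
      have e : Set.ncard {v : V | v ∉ H ∧ s' v = 0 ∧ q' v = 0 ∧ v ∉ K} = Z.card - N' - N := by
        have : {v : V | v ∉ H ∧ s' v = 0 ∧ q' v = 0 ∧ v ∉ K} =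
            (((Z \ K') \ K : Finset V) : Set V) := by
          ext v
          by_cases h : v ∈ K'
          · simp [hs'K v h, hε0, h]
          · simp [hs'n v h, hq'n v h, h, hZmem]
            tauto
        rw [this, Set.ncard_coe_finset, Finset.card_sdiff_of_subset, Finset.card_sdiff_of_subset,
          hKc, hK'c]
        · exact fun v hv => (Finset.mem_sdiff.1 (hK'Z hv)).1
        · intro v hv
          have h1 := hKZ' v hv
          exact Finset.mem_sdiff.2 ⟨(hZmem v).2 h1.1, h1.2.2⟩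
      rw [e]
      apply hNpar
      have h1 : K ⊆ Z \ K' := by
        intro v hv
        have h1 := hKZ' v hv
        exact Finset.mem_sdiff.2 ⟨(hZmem v).2 h1.1, h1.2.2⟩
      have h2 := Finset.card_le_card h1
      rw [Finset.card_sdiff_of_subset (fun v hv => (Finset.mem_sdiff.1 (hK'Z hv)).1), hKc,
        hK'c] at h2
      exact h2)
    (by
      have e1 : univ.filter (fun v => s' v ≠ 0) = A ∪ K' := by
        ext v
        by_cases h : v ∈ K'
        · simp [hs'K v h, hε0, h]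
        · simp [hs'n v h, h, hA]
      have e2 : Disjoint A K' := by
        rw [Finset.disjoint_left]
        intro v h1 h2
        exact (mem_filter.1 h1).2 (hK'Z' v h2).2.1
      have e3 : ∑ v ∈ A, s' v = ∑ v ∈ A, s v := Finset.sum_congr rfl fun v hv =>
        hs'n v (fun h => Finset.disjoint_left.1 e2 hv h)
      have e4 : ∑ v ∈ K', s' v = N' * ε := by
        rw [Finset.sum_congr rfl hs'K, Finset.sum_const, hK'c, nsmul_eq_mul]
      have e5 : Set.ncard {v : V | v ∉ H ∧ s' v = 0 ∧ q' v ≠ 0} = F1.card := by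
        rw [← Set.ncard_coe_finset]
        congr 1
        ext v
        by_cases h : v ∈ K'
        · simp [hs'K v h, hε0, hF1def, (hK'Z' v h).2.2]
        · simp [hs'n v h, hq'n v h, hF1def]
      rw [e1, Finset.sum_union e2, e3, e4, hεN, abs_zero, zero_add, e5, hKc]
      exact_mod_cast hN1)
    G hGH Y hmD h2k
    (by
      intro h hh
      refine ⟨(hY1 h hh).2, fun w hw => ?_⟩
      have h1 := Finset.mem_sdiff.1 ((hY1 h hh).1 hw)
      have h2 := Finset.mem_sdiff.1 h1.1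
      have h3 := (hZmem w).1 (Finset.mem_inter.1 h2.1).2
      rw [hs'n w h2.2, hq'n w h2.2]
      exact ⟨h3.1, h3.2.1, h3.2.2, h1.2⟩)
    hY2 S hSH hSG Yh N0 (4 * c) (by linarith) (by linarith) (by linarith) hN0 hN0D
    (by
      intro h hh
      refine ⟨(hYh h hh).1, (hYh h hh).2.1, fun w hw => ⟨?_, ?_, ?_⟩⟩
      · exact hHm h (hSH hh) w (mem_nb.1 ((hYh h hh).1 hw))
      · intro hwK
        exact (hKZ' w hwK).2.1 (Finset.mem_biUnion.2 ⟨h, hh, hw⟩)
      · have h1 : w ∉ K' := fun h1 => hK'U w h1 (Finset.mem_biUnion.2 ⟨h, hh, hw⟩)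
        rw [hs'H h (hSH hh), hq'n w h1]
        exact (hYh h hh).2.2 w hw)
    (2 * Real.exp (-(c ^ 2 * m / 2))) (le_refl _)
    (by
      have hexp1 : 1 ≤ Real.exp (c ^ 2 / 4 * m) := Real.one_le_exp (by positivity)
      have hD2 : (D : ℝ) ^ 2 ≤ Real.exp (c ^ 2 / 4 * m) := by
        have h1 : Real.exp (c ^ 2 / 4 * m) = Real.exp (c ^ 2 / 8 * m) ^ 2 := by
          rw [← Real.exp_nat_mul]
          congr 1
          push_cast
          ring
        rw [h1]
        exact pow_le_pow_left₀ (Nat.cast_nonneg _) hDle 2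
      have hD1 : (1 : ℝ) ≤ D := by
        have h0 : 4096 ≤ m := by exact_mod_cast hm4096
        have : 1 ≤ D := by omega
        exact_mod_cast this
      have hDR : 2 * (D : ℝ) * (D + 1) + 1 ≤ 5 * Real.exp (c ^ 2 / 4 * m) := by
        have h1 : (D : ℝ) ≤ (D : ℝ) ^ 2 := by nlinarith
        have h2 : (1 : ℝ) ≤ (D : ℝ) ^ 2 := by nlinarith
        nlinarith
      have hEE : Real.exp (-(c ^ 2 * m / 2)) * Real.exp (c ^ 2 / 4 * m) ≤ 1 / 40 := by
        rw [← Real.exp_add]
        have h1 : -(c ^ 2 * m / 2) + c ^ 2 / 4 * m = -(c ^ 2 * m / 4) := by ring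
        rw [h1, Real.exp_neg, inv_le_iff_one_le_mul₀ (by positivity)]
        have h2 : Real.exp (c ^ 2 * m / 4) = Real.exp (c ^ 2 / 4 * m) := by
          congr 1
          ring
        rw [h2]
        have h3 : (40 : ℝ) ≤ 4 * (m : ℝ) ^ 2 := by nlinarith
        have h4 : (40 : ℝ) ≤ Real.exp (c ^ 2 / 4 * m) := h3.trans hE2
        linarith
      calc 4 * (2 * Real.exp (-(c ^ 2 * m / 2))) * (2 * (D : ℝ) * (D + 1) + 1)
          ≤ 4 * (2 * Real.exp (-(c ^ 2 * m / 2))) * (5 * Real.exp (c ^ 2 / 4 * m)) :=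
            mul_le_mul_of_nonneg_left hDR (by positivity)
        _ = 40 * (Real.exp (-(c ^ 2 * m / 2)) * Real.exp (c ^ 2 / 4 * m)) := by ring
        _ ≤ 40 * (1 / 40) := mul_le_mul_of_nonneg_left hEE (by norm_num)
        _ ≤ 1 := by norm_num)
  refine ⟨e, he1, he2, ?_⟩
  intro v hv
  by_cases hvH : v ∈ H
  · by_cases hvG : v ∈ G
    · refine (he4 v hvG).trans (Finset.card_le_card ?_)
      apply Finset.filter_subset_filter
      intro w hw
      exact (Finset.mem_inter.1 (Finset.mem_sdiff.1 (Finset.mem_sdiff.1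
        ((hY1 v hvG).1 hw)).1).1).1
    · have hvS : v ∈ S := by
        rcases hv with hv | hv | hv
        · exact absurd hvH hv
        · exact hv
        · exact absurd hv hvG
      refine (he5 v hvS).trans (Finset.card_le_card ?_)
      apply Finset.filter_subset_filter
      intro w hw
      rw [mem_nb]
      exact hRP v w (mem_nb.1 ((hYh v hvS).1 hw))
  · refine (he3 v hvH).trans (Finset.card_le_card ?_)
    apply Finset.filter_subset_filter
    intro w hw
    rw [mem_nb] at hw ⊢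
    exact hRP v w hw

end Pool.Agent.helper33.Bis
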